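import Pool.Agent.Lib.MP_0a5adf_nt.EXP.H12.Rise
import Pool.Agent.Lib.MP_0a5adf_nt.EXP.H12.Sol
import Pool.Agent.Lib.MP_0a5adf_nt.EXP.H29.Tree
import Pool.Agent.Lib.MP_0a5adf_nt.EXP.H29.Words
import Pool.Agent.Lib.MP_0a5adf_nt.EXR.H19.Exc
import Pool.Agent.Lib.MP_0a5adf_nt.EXR.H29.HeightG
import Pool.Agent.Lib.MP_0a5adf_nt.EXR.H29.Letter
import Pool.Agent.Lib.MP_0a5adf_nt.EXR.H35.Final
import Pool.Agent.Lib.MP_0a5adf_nt.EXR.H59.MainG
import Pool.Agent.Lib.MP_0a5adf_nt.EXR.H72.ClassG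
import Pool.Agent.Lib.MP_0a5adf_nt.EXR.H72.EnergyG
import Pool.Agent.Lib.MP_0a5adf_nt.EXR.H78.Csg
import Pool.Agent.Lib.MP_0a5adf_nt.EXR.H78.Decompg
import Pool.Agent.Lib.MP_0a5adf_nt.EXR.H89.RidoutG

/-!
# The theorem of `EXR/Paper.md` without hypotheses
-/

set_option autoImplicit false

namespace Pool.Agent.Lib.MP_0a5adf_nt.EXR.Full

open Pool.Agent.Lib.MP_0a5adf_nt

theorem energyg : EnergyGStatement := H72.energyg H89.ridoutg EXP.H12.sol

theorem classg : ClassGStatement :=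
  H72.classg H78.csg energyg H29.letter (EXP.H29.tree EXP.H29.words) EXP.H29.words

theorem maing : MainGStatement :=
  H59.maing classg H29.heightg (H78.decompg EXP.H29.words EXP.H12.sol) EXP.H12.rise EXP.H29.words

/-- **Main theorem** -/
theorem final_thm : FinalGStatement := H35.finalg maing H19.exc

/-- `3 ^ (2 / 3)` and `3 ^ (4 / 3)`: bounds for `EE 1 (1 / 3) = 0.94035...` -/
theorem EE_bounds : (0.9402 : ℝ) ≤ EE 1 (1 / 3) ∧ EE 1 (1 / 3) ≤ 0.94038 := by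
  have h9 : ((9 : ℝ) ^ (1 / 3 : ℝ)) ^ 3 = 9 := by
    rw [← Real.rpow_natCast, ← Real.rpow_mul (by norm_num)]; norm_num
  have h81 : ((81 : ℝ) ^ (1 / 3 : ℝ)) ^ 3 = 81 := by
    rw [← Real.rpow_natCast, ← Real.rpow_mul (by norm_num)]; norm_num
  have p9 : 0 < (9 : ℝ) ^ (1 / 3 : ℝ) := by positivity
  have p81 : 0 < (81 : ℝ) ^ (1 / 3 : ℝ) := by positivity
  have a1 : (9 : ℝ) ^ (1 / 3 : ℝ) ≤ 2.0801 := by
    by_contra h
    push Not at h
    have := pow_lt_pow_left₀ h (by norm_num) (n := 3) (by norm_num)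
    rw [h9] at this
    norm_num at this
  have a2 : (2.08 : ℝ) ≤ (9 : ℝ) ^ (1 / 3 : ℝ) := by
    by_contra h
    push Not at h
    have := pow_lt_pow_left₀ h p9.le (n := 3) (by norm_num)
    rw [h9] at this
    norm_num at this
  have b1 : (81 : ℝ) ^ (1 / 3 : ℝ) ≤ 4.3268 := by
    by_contra h
    push Not at h
    have := pow_lt_pow_left₀ h (by norm_num) (n := 3) (by norm_num)
    rw [h81] at this
    norm_num at this
  have b2 : (4.3267 : ℝ) ≤ (81 : ℝ) ^ (1 / 3 : ℝ) := by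
    by_contra h
    push Not at h
    have := pow_lt_pow_left₀ h p81.le (n := 3) (by norm_num)
    rw [h81] at this
    norm_num at this
  set s := 1 + 6 * (9 : ℝ) ^ (1 / 3 : ℝ) + (81 : ℝ) ^ (1 / 3 : ℝ) with hs
  have hs1 : s ≤ 17.8074 := by rw [hs]; linarith
  have hs2 : 17.8067 ≤ s := by rw [hs]; linarith
  have hs0 : 0 < s := by linarith
  have hup : Real.logb 2 s ≤ 511 / 123 := by
    rw [Real.logb_le_iff_le_rpow (by norm_num) hs0]
    have h1 : ((2 : ℝ) ^ (511 / 123 : ℝ)) ^ 123 = (2 ^ 73) ^ 7 := by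
      rw [← Real.rpow_natCast, ← Real.rpow_mul (by norm_num), ← pow_mul, ← Real.rpow_natCast]
      norm_num
    by_contra h
    push Not at h
    have h2 := pow_lt_pow_left₀ (lt_of_lt_of_le h hs1) (by positivity) (n := 123) (by norm_num)
    rw [h1] at h2
    norm_num at h2
  have hlo : 889 / 214 ≤ Real.logb 2 s := by
    rw [Real.le_logb_iff_rpow_le (by norm_num) hs0]
    have h1 : ((2 : ℝ) ^ (889 / 214 : ℝ)) ^ 214 = (2 ^ 127) ^ 7 := by
      rw [← Real.rpow_natCast, ← Real.rpow_mul (by norm_num), ← pow_mul, ← Real.rpow_natCast]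
      norm_num
    by_contra h
    push Not at h
    have h2 := pow_lt_pow_left₀ (lt_of_le_of_lt hs2 h) (by norm_num) (n := 214) (by norm_num)
    rw [h1] at h2
    norm_num at h2
  unfold EE
  rw [← hs]
  constructor <;> norm_num <;> linarith

/-- `θ = 1` with numbers -/
theorem numeric : ∃ C : ℝ, ∀ X : ℝ, 1 ≤ X →
    ({x : ℤ | |(x : ℝ)| ≤ X ∧ ¬ GoodG 1 1.26 x}.ncard : ℝ) ≤ C * X ^ (0.9404 : ℝ) := by
  obtain ⟨h1, h2⟩ := EE_bounds
  obtain ⟨C, hC⟩ := final_thm 1 (1 / 3) 0.00001 (by norm_num) le_rfl (by norm_num) le_rfl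
    (by norm_num)
  refine ⟨max C 0, fun X hX => ?_⟩
  have hfin : {x : ℤ | |(x : ℝ)| ≤ X ∧ ¬ GoodG 1 (2 - EE 1 (1 / 3) + 1 / 5 + 0.00001) x}.Finite := by
    refine (Set.finite_Icc (-⌊X⌋) ⌊X⌋).subset ?_
    intro x hx
    have h := abs_le.1 hx.1
    constructor
    · have : -x ≤ ⌊X⌋ := Int.le_floor.2 (by push_cast; linarith [h.1])
      linarith
    · exact Int.le_floor.2 h.2
  have hsub : {x : ℤ | |(x : ℝ)| ≤ X ∧ ¬ GoodG 1 1.26 x} ⊆
      {x : ℤ | |(x : ℝ)| ≤ X ∧ ¬ GoodG 1 (2 - EE 1 (1 / 3) + 1 / 5 + 0.00001) x} := by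
    rintro x ⟨hx, hg⟩
    refine ⟨hx, fun hg' => hg ?_⟩
    obtain ⟨k, hk, hk1, hk2⟩ := hg'
    refine ⟨k, hk, hk1, fun j hj => (hk2 j hj).trans ?_⟩
    have hx1 : 1 ≤ |(x : ℝ)| := by
      rcases eq_or_ne x 0 with rfl | h0
      · exfalso
        norm_num at hk1
        linarith [abs_nonneg (((Pool.Agent.Lib.MP_0a5adf_nt.EXP.T^[k] 0 : ℤ) : ℝ))]
      · have := Int.one_le_abs h0
        exact_mod_cast this
    exact Real.rpow_le_rpow_of_exponent_le hx1 (by linarith)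
  calc ({x : ℤ | |(x : ℝ)| ≤ X ∧ ¬ GoodG 1 1.26 x}.ncard : ℝ) ≤
      ({x : ℤ | |(x : ℝ)| ≤ X ∧
        ¬ GoodG 1 (2 - EE 1 (1 / 3) + 1 / 5 + 0.00001) x}.ncard : ℝ) := by
        exact_mod_cast Set.ncard_le_ncard hsub hfin
    _ ≤ C * X ^ (EE 1 (1 / 3) + 0.00001) := hC X hX
    _ ≤ max C 0 * X ^ (EE 1 (1 / 3) + 0.00001) := by
        apply mul_le_mul_of_nonneg_right (le_max_left _ _) (by positivity)
    _ ≤ max C 0 * X ^ (0.9404 : ℝ) := by
        apply mul_le_mul_of_nonneg_left _ (le_max_right _ _)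
        exact Real.rpow_le_rpow_of_exponent_le hX (by linarith)

end Pool.Agent.Lib.MP_0a5adf_nt.EXR.Full
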